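import Pool.Agent.Helper7.EC_E.GoalsM

/-!
# MP_ecc237_nt, PART E, packet MT
-/

set_option autoImplicit false

open MeasureTheory Filter Topology Set

namespace EC237.ZE.PkMT

theorem thm (h1 : EC237.ZE.G_MSUM) (h2 : EC237.ZE.G_MB) (h3 : EC237.ZE.G_MC)
    (h4 : EC237.ZE.G_MD) (h5 : EC237.ZE.G_ME) (h6 : EC237.ZE.G_MS1) (h7 : EC237.ZE.G_MS2)
    (h8 : EC237.ZE.G_MS3) (h9 : EC237.ZE.G_MY) : EC237.ZE.G_MT := by
  obtain ⟨s4, s5, s31, s41, s32, s23, s311, s221, sq, hnn⟩ := h1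
  unfold G_MB at h2
  unfold G_MC at h3
  unfold G_MD at h4
  unfold G_ME at h5
  unfold G_MY at h9
  have e5 : HasSum (fun n : ℕ => 1 / ((n:ℝ) + 1) ^ 5) zeta5 := s5.hasSum
  have e41 : HasSum (fun n : ℕ => Hs 1 n / ((n:ℝ) + 1) ^ 4) z41 := s41.hasSum
  have e32 : HasSum (fun n : ℕ => Hs 2 n / ((n:ℝ) + 1) ^ 3) z32 := s32.hasSum
  have e23 : HasSum (fun n : ℕ => Hs 3 n / ((n:ℝ) + 1) ^ 2) z23 := s23.hasSum
  have e221 : HasSum (fun n : ℕ => Zn n / ((n:ℝ) + 1) ^ 2) z221 := s221.hasSum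
  have key := (((((e32.mul_left 4).add (e23.mul_left 4)).sub (e221.mul_left 4)).sub
    (e41.mul_left 6)).add (e5.mul_left (5 / 2))).add h9
  have hv : 4 * z32 + 4 * z23 - 4 * z221 - 6 * z41 + 5 / 2 * zeta5 +
      (6 * z41 - 2 * zeta5 + 16 * z311 + 8 * z32) = 13 / 2 * zeta5 := by
    linarith
  rw [hv] at key
  unfold G_MT
  have hfun : (fun n : ℕ => 1 / ((n:ℝ) + 1) * (2 / ((n:ℝ) + 1) ^ 2 * Sab 1 1 n +
      1 / ((n:ℝ) + 1) * (Sab 2 1 n + Sab 1 2 n) + Sab 2 2 n)) =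
      fun n : ℕ => 4 * (Hs 2 n / ((n:ℝ) + 1) ^ 3) + 4 * (Hs 3 n / ((n:ℝ) + 1) ^ 2) -
        4 * (Zn n / ((n:ℝ) + 1) ^ 2) - 6 * (Hs 1 n / ((n:ℝ) + 1) ^ 4) +
        5 / 2 * (1 / ((n:ℝ) + 1) ^ 5) + (2 * Hs 4 n - 8 * Yn n) / ((n:ℝ) + 1) := by
    funext n
    have hx : ((n:ℝ) + 1) ≠ 0 := by positivity
    rw [h6 n, (h7 n).1, (h7 n).2, h8 n]
    field_simp
    ring
  rw [hfun]
  exact key

end EC237.ZE.PkMT
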